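import Mathlib

set_option autoImplicit false

namespace Pool.Agent.Results.MP_f8f7ac_co.Cyclic13

/-- The real Euclidean plane. -/
abbrev Plane := EuclideanSpace ℝ (Fin 2)

/-- A configuration `(n_3)` with points and lines both indexed by `Fin n`. -/
def IsConfig {n : ℕ} (inc : Fin n → Fin n → Prop) : Prop :=
  (∀ p, {l | inc p l}.ncard = 3) ∧ (∀ l, {p | inc p l}.ncard = 3) ∧
    ∀ p q l m, p ≠ q → inc p l → inc q l → inc p m → inc q m → l = m

/-- An automorphism: bijections of points and of lines preserving incidence both ways. -/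
def IsAut {n : ℕ} (inc : Fin n → Fin n → Prop) (σ τ : Equiv.Perm (Fin n)) : Prop :=
  ∀ p l, inc (σ p) (τ l) ↔ inc p l

/-- A straight line of the plane. -/
def IsLine (s : Set Plane) : Prop :=
  ∃ a b c : ℝ, (a ≠ 0 ∨ b ≠ 0) ∧ s = {z | a * z 0 + b * z 1 = c}

/-- A geometric realization. -/
def IsRealization {n : ℕ} (inc : Fin n → Fin n → Prop) (pt : Fin n → Plane)
    (ln : Fin n → Set Plane) : Prop :=
  Function.Injective pt ∧ Function.Injective ln ∧ (∀ l, IsLine (ln l)) ∧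
    ∀ p l, pt p ∈ ln l ↔ inc p l

/-- A symmetry of a realization. -/
def IsSymmetry {n : ℕ} (pt : Fin n → Plane) (ln : Fin n → Set Plane) (f : Plane ≃ᵢ Plane) : Prop :=
  f '' Set.range pt = Set.range pt ∧ (fun s => f '' s) '' Set.range ln = Set.range ln

abbrev inc (p l : Fin 13) : Prop := p = l ∨ p = l + 1 ∨ p = l + 4

def colB (a b c : Fin 13) : Bool :=
  decide (a ≠ b ∧ a ≠ c ∧ b ≠ c ∧ ∃ j, inc a j ∧ inc b j ∧ inc c j)

abbrev col (a b c : Fin 13) : Prop := colB a b c = true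

lemma ne14 : ∀ j : Fin 13, j ≠ j + 1 ∧ j ≠ j + 4 ∧ j + 1 ≠ j + 4 := by decide

set_option synthInstance.maxSize 100000 in
lemma classify : ∀ p0 p1 p4 : Fin 13, col p0 p1 p4 → ∀ p2 p5, col p1 p2 p5 → ∀ p8, col p4 p5 p8 →
    ∀ p3 p6, col p2 p3 p6 → ∀ p7, col p3 p4 p7 → ∀ p9, col p5 p6 p9 → ∀ p10, col p6 p7 p10 →
    col p9 p10 p0 → ∀ p11, col p7 p8 p11 → col p10 p11 p1 → ∀ p12, col p8 p9 p12 →
    col p11 p12 p2 → col p12 p0 p3 →
    [p0, p1, p2, p3, p4, p5, p6, p7, p8, p9, p10, p11, p12].Nodup →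
    ∃ m : Fin 13, (m = 1 ∨ m = 3 ∨ m = 9) ∧ ∀ i : Fin 13,
      ![p0, p1, p2, p3, p4, p5, p6, p7, p8, p9, p10, p11, p12] i = p0 + m * i := by
  decide +kernel

lemma classify' (π : Fin 13 → Fin 13) (hinj : Function.Injective π)
    (h : ∀ j, ∃ j', inc (π j) j' ∧ inc (π (j + 1)) j' ∧ inc (π (j + 4)) j') :
    ∃ m : Fin 13, (m = 1 ∨ m = 3 ∨ m = 9) ∧ ∀ i, π i = π 0 + m * i := by
  have hc : ∀ j, col (π j) (π (j + 1)) (π (j + 4)) := by
    intro j
    exact decide_eq_true ⟨fun e => (ne14 j).1 (hinj e), fun e => (ne14 j).2.1 (hinj e),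
      fun e => (ne14 j).2.2 (hinj e), h j⟩
  obtain ⟨m, hm, h2⟩ := classify (π 0) (π 1) (π 4) (hc 0) (π 2) (π 5) (hc 1) (π 8) (hc 4) (π 3) (π 6)
    (hc 2) (π 7) (hc 3) (π 9) (hc 5) (π 10) (hc 6) (hc 9) (π 11) (hc 7) (hc 10) (π 12) (hc 8)
    (hc 11) (hc 12) (List.Nodup.map hinj (l := [0, 1, 2, 3, 4, 5, 6, 7, 8, 9, 10, 11, 12])
      (by decide))
  refine ⟨m, hm, fun i => ?_⟩
  rw [← h2 i]
  fin_cases i <;> rfl

lemma param {a b d₁ d₂ : ℝ} (hab : a ≠ 0 ∨ b ≠ 0) (h : a * d₁ + b * d₂ = 0) :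
    ∃ s, d₁ = -b * s ∧ d₂ = a * s := by
  rcases hab with ha | hb
  · refine ⟨d₂ / a, ?_, by field_simp⟩
    field_simp
    linarith
  · refine ⟨-d₁ / b, by field_simp, ?_⟩
    field_simp
    linarith

lemma dist_sq (x y : Plane) : dist x y ^ 2 = (x 0 - y 0) ^ 2 + (x 1 - y 1) ^ 2 := by
  rw [EuclideanSpace.dist_eq, Real.sq_sqrt (by positivity), Fin.sum_univ_two, Real.dist_eq,
    Real.dist_eq, sq_abs, sq_abs]

lemma plane_ext {x y : Plane} (h0 : x 0 = y 0) (h1 : x 1 = y 1) : x = y := by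
  ext i
  fin_cases i
  · exact h0
  · exact h1

/-- three distinct points on a line, parametrised -/
lemma three {s : Set Plane} (hs : IsLine s) {x y z : Plane} (hx : x ∈ s) (hy : y ∈ s) (hz : z ∈ s)
    (hxy : x ≠ y) (hxz : x ≠ z) (hyz : y ≠ z) : ∃ u v t r : ℝ, 0 < u ^ 2 + v ^ 2 ∧ t ≠ 0 ∧ r ≠ 0 ∧
      t ≠ r ∧ y 0 = x 0 + u * t ∧ y 1 = x 1 + v * t ∧ z 0 = x 0 + u * r ∧ z 1 = x 1 + v * r := by
  obtain ⟨a, b, c, hab, rfl⟩ := hs
  simp only [Set.mem_setOf_eq] at hx hy hz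
  obtain ⟨t, t1, t2⟩ := param (d₁ := y 0 - x 0) (d₂ := y 1 - x 1) hab (by linarith)
  obtain ⟨r, r1, r2⟩ := param (d₁ := z 0 - x 0) (d₂ := z 1 - x 1) hab (by linarith)
  refine ⟨-b, a, t, r, ?_, ?_, ?_, ?_, by linarith, by linarith, by linarith, by linarith⟩
  · rw [neg_sq]
    rcases hab with h | h <;> positivity
  · rintro rfl
    exact hxy (plane_ext (by linarith) (by linarith))
  · rintro rfl
    exact hxz (plane_ext (by linarith) (by linarith))
  · rintro rfl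
    exact hyz (plane_ext (by linarith) (by linarith))

def px : Fin 13 → ℤ := ![-6, 0, 0, -3, -12, 0, -2, 6, 3, 4, -1, -3, 2]
def py : Fin 13 → ℤ := ![0, -12, 0, -3, 12, -4, -2, -18, -8, -8, -4, 12, -8]
def la : Fin 13 → ℤ := ![2, -1, 1, -5, 4, -1, 2, -10, 0, -4, -8, 4, -1]
def lb : Fin 13 → ℤ := ![1, 0, -1, -3, 3, -1, 1, -3, 1, -5, -1, 1, -1]
def lc : Fin 13 → ℤ := ![-12, 0, 0, 24, -12, 4, -6, -6, -8, 24, 12, 0, 6]

lemma realizable : ∃ pt ln, IsRealization inc pt ln := by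
  have hinc : ∀ p l, (la l * px p + lb l * py p = lc l) ↔ inc p l := by decide +kernel
  have hmem : ∀ p l, (!₂[(px p : ℝ), (py p : ℝ)] : Plane) ∈
      {z : Plane | (la l : ℝ) * z 0 + (lb l : ℝ) * z 1 = lc l} ↔ inc p l := by
    intro p l
    rw [← hinc]
    simp only [Set.mem_setOf_eq, PiLp.toLp_apply, Matrix.cons_val_zero, Matrix.cons_val_one]
    exact_mod_cast Iff.rfl
  refine ⟨fun p => !₂[(px p : ℝ), (py p : ℝ)],
    fun l => {z | (la l : ℝ) * z 0 + (lb l : ℝ) * z 1 = lc l}, ?_, ?_, ?_, hmem⟩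
  · intro p q h
    have key : ∀ p q : Fin 13, (∀ l, inc p l ↔ inc q l) → p = q := by decide +kernel
    refine key p q fun l => ?_
    rw [← hmem, ← hmem]
    simp only at h
    rw [h]
  · intro l m h
    have key : ∀ l m : Fin 13, (∀ p, inc p l ↔ inc p m) → l = m := by decide +kernel
    refine key l m fun p => ?_
    rw [← hmem, ← hmem]
    simp only at h
    rw [h]
  · intro l
    refine ⟨la l, lb l, lc l, ?_, rfl⟩
    have : ∀ l, la l ≠ 0 ∨ lb l ≠ 0 := by decide +kernel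
    exact_mod_cast this l

lemma no_symmetry (pt : Fin 13 → Plane) (ln : Fin 13 → Set Plane) (h : IsRealization inc pt ln)
    (f : Plane ≃ᵢ Plane) (hf : IsSymmetry pt ln f) : f = IsometryEquiv.refl Plane := by
  obtain ⟨hp, -, hl, hinc⟩ := h
  obtain ⟨hf1, hf2⟩ := hf
  have h1 : ∀ i, ∃ j, pt j = f (pt i) := fun i => by
    have : f (pt i) ∈ Set.range pt := hf1 ▸ ⟨pt i, ⟨i, rfl⟩, rfl⟩
    exact this
  choose π hπ using h1
  have hinj : Function.Injective π := by
    intro a b hab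
    apply hp
    apply f.injective
    rw [← hπ, ← hπ, hab]
  obtain ⟨m, hm, hπ'⟩ := classify' π hinj (by
    intro j
    have : f '' ln j ∈ Set.range ln := hf2 ▸ ⟨ln j, ⟨j, rfl⟩, rfl⟩
    obtain ⟨j', hj'⟩ := this
    refine ⟨j', ?_, ?_, ?_⟩ <;> rw [← hinc, hj', hπ] <;>
      exact ⟨_, (hinc _ _).2 (by simp [inc]), rfl⟩)
  have hd : ∀ i j, dist (pt (π i)) (pt (π j)) = dist (pt i) (pt j) := by
    intro i j
    rw [hπ, hπ, f.dist_eq]
  have hthree : ∀ j, ∃ u v t r : ℝ, 0 < u ^ 2 + v ^ 2 ∧ t ≠ 0 ∧ r ≠ 0 ∧ t ≠ r ∧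
      pt (j + 1) 0 = pt j 0 + u * t ∧ pt (j + 1) 1 = pt j 1 + v * t ∧
      pt (j + 4) 0 = pt j 0 + u * r ∧ pt (j + 4) 1 = pt j 1 + v * r := by
    intro j
    exact three (hl j) ((hinc _ _).2 (by simp [inc])) ((hinc _ _).2 (by simp [inc]))
      ((hinc _ _).2 (by simp [inc])) (fun e => (ne14 j).1 (hp e)) (fun e => (ne14 j).2.1 (hp e))
      (fun e => (ne14 j).2.2 (hp e))
  generalize π 0 = c at hπ'
  by_cases hm1 : m = 1
  · subst hm1
    by_cases hc : c = 0
    · subst hc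
      have hfix : ∀ i, f (pt i) = pt i := fun i => by rw [← hπ, hπ']; simp
      ext1 z
      change f z = z
      by_contra hne
      have e : ∀ i, dist (f z) (pt i) ^ 2 = dist z (pt i) ^ 2 := fun i => by
        conv_lhs => rw [← hfix i, f.dist_eq]
      have e0 := e 0
      have e1 := e 1
      have e2 := e 2
      rw [dist_sq, dist_sq] at e0 e1 e2
      have hab' : f z 0 - z 0 ≠ 0 ∨ f z 1 - z 1 ≠ 0 := by
        by_contra h
        push Not at h
        exact hne (plane_ext (by linarith [h.1]) (by linarith [h.2]))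
      obtain ⟨s, s1, s2⟩ := param (d₁ := pt 1 0 - pt 0 0) (d₂ := pt 1 1 - pt 0 1) hab' (by linarith)
      obtain ⟨r, r1, r2⟩ := param (d₁ := pt 2 0 - pt 0 0) (d₂ := pt 2 1 - pt 0 1) hab' (by linarith)
      have hs : s ≠ 0 := by
        rintro rfl
        have : pt 1 = pt 0 := plane_ext (by linarith) (by linarith)
        exact absurd (hp this) (by decide)
      obtain ⟨a, b, c, -, hL⟩ := hl 0
      have m0 := (hinc 0 0).2 (by decide)
      have m1 := (hinc 1 0).2 (by decide)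
      have m2 : pt 2 ∉ ln 0 := fun h => absurd ((hinc 2 0).1 h) (by decide)
      rw [hL] at m0 m1 m2
      simp only [Set.mem_setOf_eq] at m0 m1 m2
      apply m2
      have k : s * (a * -(f z 1 - z 1) + b * (f z 0 - z 0)) = 0 := by
        linear_combination m1 - m0 - a * s1 - b * s2
      have k2 := (mul_eq_zero.1 k).resolve_left hs
      linear_combination m0 + a * r1 + b * r2 + r * k2
    · exfalso
      have hk : ∀ (k : ℕ) (i j : Fin 13),
          dist (pt (i + k • c)) (pt (j + k • c)) = dist (pt i) (pt j) := by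
        intro k
        induction k with
        | zero => simp
        | succ k ih =>
          intro i j
          rw [← ih i j, ← hd (i + k • c), hπ', hπ', succ_nsmul]
          congr 2 <;> simp <;> abel
      have ht : ∀ t : Fin 13, ∑ j, dist (pt t) (pt j) ^ 2 = ∑ j, dist (pt 0) (pt j) ^ 2 := by
        intro t
        have : ∀ c t : Fin 13, c ≠ 0 → ∃ k : Fin 13, t = (k : ℕ) • c := by decide +kernel
        obtain ⟨k, rfl⟩ := this c t hc
        rw [← Equiv.sum_comp (Equiv.addRight ((k : ℕ) • c))]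
        refine Finset.sum_congr rfl fun j _ => ?_
        have := hk k 0 j
        rw [zero_add] at this
        rw [← this]; rfl
      obtain ⟨u, v, t, r, huv, ht0, hr0, htr, a1, a2, a3, a4⟩ := hthree 0
      have e : ∀ (w : Fin 13) (s : ℝ), pt w 0 = pt 0 0 + u * s → pt w 1 = pt 0 1 + v * s → s ≠ 0 →
          13 * (u ^ 2 + v ^ 2) * s + 2 * ∑ j, (u * (pt 0 0 - pt j 0) + v * (pt 0 1 - pt j 1)) = 0 := by
        intro w s b1 b2 hs
        have e1 := ht w
        simp only [dist_sq, b1, b2] at e1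
        rw [← sub_eq_zero, ← Finset.sum_sub_distrib] at e1
        apply mul_left_cancel₀ hs
        rw [mul_zero, ← e1, Finset.mul_sum, mul_add, Finset.mul_sum]
        have : s * (13 * (u ^ 2 + v ^ 2) * s) = ∑ _j : Fin 13, s * ((u ^ 2 + v ^ 2) * s) := by
          simp; ring
        rw [this, ← Finset.sum_add_distrib]
        exact Finset.sum_congr rfl fun j _ => by ring
      have e1 := e _ t a1 a2 ht0
      have e2 := e _ r a3 a4 hr0
      apply htr
      have : (13 * (u ^ 2 + v ^ 2)) * t = (13 * (u ^ 2 + v ^ 2)) * r := by linarith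
      exact mul_left_cancel₀ (by positivity) this
  · exfalso
    have key : ∀ m c : Fin 13, (m = 1 ∨ m = 3 ∨ m = 9) → m ≠ 1 → ∃ j : Fin 13,
        (c + m * j = j + 1 ∧ c + m * (j + 1) = j + 4 ∧ c + m * (j + 4) = j) ∨
        (c + m * j = j + 4 ∧ c + m * (j + 1) = j ∧ c + m * (j + 4) = j + 1) := by decide +kernel
    obtain ⟨j, hj⟩ := key m c hm hm1
    obtain ⟨u, v, t, r, huv, ht0, hr0, htr, a1, a2, a3, a4⟩ := hthree j
    have d1 := hd j (j + 1)
    have d2 := hd j (j + 4)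
    rw [hπ', hπ'] at d1 d2
    have hh : dist (pt j) (pt (j + 1)) ^ 2 = dist (pt j) (pt (j + 4)) ^ 2 ∧
        dist (pt j) (pt (j + 1)) ^ 2 = dist (pt (j + 1)) (pt (j + 4)) ^ 2 := by
      rcases hj with ⟨j1, j2, j3⟩ | ⟨j1, j2, j3⟩
      · rw [j1, j2] at d1
        rw [j1, j3, dist_comm] at d2
        exact ⟨by rw [d2], by rw [d1]⟩
      · rw [j1, j2, dist_comm] at d1
        rw [j1, j3, dist_comm] at d2
        exact ⟨by rw [d1], by rw [d2, d1]⟩
    simp only [dist_sq, a1, a2, a3, a4] at hh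
    obtain ⟨h1, h2⟩ := hh
    have k1 : (u ^ 2 + v ^ 2) * ((t - r) * (t + r)) = 0 := by linear_combination h1
    have k2 : (u ^ 2 + v ^ 2) * (r * (2 * t - r)) = 0 := by linear_combination h2
    have k3 := ((mul_eq_zero.1 ((mul_eq_zero.1 k1).resolve_left huv.ne')).resolve_left
      (sub_ne_zero.2 htr))
    have k4 := ((mul_eq_zero.1 ((mul_eq_zero.1 k2).resolve_left huv.ne')).resolve_left hr0)
    apply ht0
    linarith

def mul3 : Equiv.Perm (Fin 13) where
  toFun x := 3 * x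
  invFun x := 9 * x
  left_inv := by decide +kernel
  right_inv := by decide +kernel

theorem result : ∃ (n : ℕ) (inc : Fin n → Fin n → Prop), IsConfig inc ∧
    (∀ p q, ∃ σ τ, IsAut inc σ τ ∧ σ p = q) ∧ (∀ l m, ∃ σ τ, IsAut inc σ τ ∧ τ l = m) ∧
    (∀ p l q m, inc p l → inc q m → ∃ σ τ, IsAut inc σ τ ∧ σ p = q ∧ τ l = m) ∧
    (∃ pt ln, IsRealization inc pt ln) ∧
    ∀ pt ln, IsRealization inc pt ln → ∀ f, IsSymmetry pt ln f → f = IsometryEquiv.refl Plane := by
  have hA : ∀ (k : Fin 3) (c : Fin 13), IsAut inc (Equiv.addRight c * mul3 ^ (k : ℕ))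
      (Equiv.addRight c * (Equiv.addRight 12 * mul3) ^ (k : ℕ)) := by
    unfold IsAut
    decide +kernel
  have hF : ∀ p l q m, inc p l → inc q m → ∃ σ τ, IsAut inc σ τ ∧ σ p = q ∧ τ l = m := by
    intro p l q m h1 h2
    have : ∀ p l q m, inc p l → inc q m → ∃ (k : Fin 3) (c : Fin 13),
        (Equiv.addRight c * mul3 ^ (k : ℕ) : Equiv.Perm (Fin 13)) p = q ∧
        (Equiv.addRight c * (Equiv.addRight 12 * mul3) ^ (k : ℕ) : Equiv.Perm (Fin 13)) l = m := by
      decide +kernel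
    obtain ⟨k, c, h⟩ := this p l q m h1 h2
    exact ⟨_, _, hA k c, h⟩
  refine ⟨13, inc, ⟨?_, ?_, by decide +kernel⟩, ?_, ?_, hF, realizable, no_symmetry⟩
  · intro p
    rw [Set.ncard_eq_toFinset_card']
    revert p
    decide +kernel
  · intro p
    rw [Set.ncard_eq_toFinset_card']
    revert p
    decide +kernel
  · intro p q
    obtain ⟨σ, τ, h, h1, -⟩ := hF p p q q (Or.inl rfl) (Or.inl rfl)
    exact ⟨σ, τ, h, h1⟩
  · intro p q
    obtain ⟨σ, τ, h, -, h1⟩ := hF p p q q (Or.inl rfl) (Or.inl rfl)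
    exact ⟨σ, τ, h, h1⟩

end Pool.Agent.Results.MP_f8f7ac_co.Cyclic13
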